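import Pool.Agent.Work.MP_701abf_gt.Cob.Line

/-!
# MP_701abf_gt: the structure of the Adams lines

For all `s` and `L` there is `B` such that for every `t > B` the group `Ext_A^{s,t}(F_2, F_2)` is
zero, or `t` is even and `Sq^0 : Ext^{s,t/2} → Ext^{s,t}` is an isomorphism, or
`t = 2 ^ (a + L) T + M` with `0 < M < 2 ^ a`, `T > 0`, and the products give an isomorphism
`⨁ i, Ext^{i,2^(a+L)T} ⊗ Ext^{s-i,M} ≅ Ext^{s,t}`.

In particular, for every `s` all but finitely many Sq^0-families on the `s`-line are sums of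
products of Sq^0-families on lower lines, up to finitely many families: `Ext^{s,*}` is generated
under products and `Sq^0` by the lower lines and the finitely many groups `Ext^{s,t}`, `t ≤ B`.

Definitions are in `Pool.Agent.Work.MP_701abf_gt.Cob.Defs`,
`Pool.Agent.Work.MP_701abf_gt.Cob.OpsDefs` and `Pool.Agent.Work.MP_701abf_gt.Cob.GenDefs`.
-/

namespace Pool.Agent.Work.MP_701abf_gt.Old.LineStructure

open Pool.Agent.Work.MP_701abf_gt.Cob

/-- For all `s`, `L` there is `B` such that for all `t > B`: `Ext^{s,t} = 0`, or `t = 2 t'` and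
`Sq^0 : Ext^{s,t'} → Ext^{s,t}` is bijective, or `t = 2 ^ (a + L) T + M`, `0 < M < 2 ^ a`,
`0 < T`, and the Kuenneth formula holds for `Ext^{s,t}`. -/
theorem result (s L : ℕ) : ∃ B : ℕ, ∀ t : ℕ, B < t →
    Zc s t ≤ Bc s t ∨ (∃ t', t = 2 * t' ∧ Function.Bijective (Sq0 s t')) ∨
      ∃ a M T : ℕ, 0 < M ∧ M < 2 ^ a ∧ 0 < T ∧ t = 2 ^ (a + L) * T + M ∧
        Kunneth s (2 ^ (a + L) * T) M :=
  line_structure s L

end Pool.Agent.Work.MP_701abf_gt.Old.LineStructure
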