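import Pool.Agent.Work.MP_701abf_gt.Cob.Bridge

/-!
# MP_701abf_gt: stability of Sq^0 on every Adams line

For every `s` there is `J` such that `Sq^0 : Ext_A^{s,t}(F_2, F_2) → Ext_A^{s,2t}(F_2, F_2)` is
an isomorphism whenever `2 ^ J` divides `t`.  In particular a `Sq^0`-family `x_0, x_1, …` on the
`s`-line with `x_j = 0` for some `j` has `x_j = 0` for all `j ≥ J`, and every class in degree
`(s, 2 ^ (J + i) t)` is `(Sq^0)^i` of a unique class in degree `(s, 2 ^ J t)`.

`Ext` is the cohomology of the cobar complex of the dual Steenrod algebra `F_2[ξ_1, ξ_2, …]`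
(definitions in `Pool.Agent.Work.MP_701abf_gt.Cob.Defs`).
-/

namespace Pool.Agent.Work.MP_701abf_gt.Old.SqZeroStability

open Pool.Agent.Work.MP_701abf_gt.Cob

/-- For every `s` there is `J` such that `Sq^0 : Ext^{s,t} → Ext^{s,2t}` is bijective for all
`t` divisible by `2 ^ J`. -/
theorem result (s : ℕ) : ∃ J : ℕ, ∀ t : ℕ, 2 ^ J ∣ t → Function.Bijective (Sq0 s t) :=
  Sq0_bijective s

end Pool.Agent.Work.MP_701abf_gt.Old.SqZeroStability
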